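import Pool.Agent.Run7.h429.MB.Main

/-!
# A continuous outer measure and measures on the countably generated subalgebras give a measure
-/

open H429.MB

universe u

/-- Let `B` be a complete Boolean algebra which carries a continuous outer measure and all of whose
countably generated complete subalgebras admit measures. Then `B` admits a measure. -/
theorem Pool.Agent.Results.MP_2d6919_lc.OuterMeasureSuffices.result
    (B : Type u) [CompleteBooleanAlgebra B]
    (houter : ∃ m : B → ℝ, IsContinuousOuterMeasure m)
    (hsub : ∀ S : Set B, S.Countable → ∃ μ : B → ℝ, IsMeasureOn (generated S) μ) :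
    ∃ μ : B → ℝ, IsMeasureOn (Set.univ : Set B) μ := by
  obtain ⟨m, hm⟩ := houter
  exact main hm hsub
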